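import Pool.Agent.Helper27_LeoK.RatA

/-!
# Squad leok, module RAT: the vanishing implies that the class number is prime to 3
-/

set_option autoImplicit false

open NumberField IsDedekindDomain WithZero Module
open Pool.Agent.Helper85_Leo Pool.Agent.Leo3
open scoped nonZeroDivisors

namespace Pool.Agent.LeoK.H27

section
variable {K : Type} [Field K] [NumberField K]

/-- an ideal of order 3 in the class group, prime to 3 -/
theorem exists_ideal (h : 3 ∣ Fintype.card (ClassGroup (𝓞 K))) :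
    ∃ (B : Ideal (𝓞 K)) (z : 𝓞 K), B ≠ ⊥ ∧ B ^ 3 = Ideal.span {z} ∧
      (∀ d, (B ^ d).IsPrincipal → 3 ∣ d) ∧ Ideal.span {(3 : 𝓞 K)} ⊔ B = ⊤ := by
  have hp : Fact (Nat.Prime 3) := ⟨Nat.prime_three⟩
  obtain ⟨c, hc⟩ := exists_prime_orderOf_dvd_card 3 h
  obtain ⟨⟨A, hA⟩, hAc⟩ := ClassGroup.mk0_surjective (c⁻¹)
  have hA0 : A ≠ 0 := nonZeroDivisors.ne_zero hA
  have h30 : Ideal.span {(3 : 𝓞 K)} ≠ 0 := by
    rw [Ne, Ideal.zero_eq_bot, Ideal.span_singleton_eq_bot]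
    norm_num
  obtain ⟨a, ha⟩ := IsDedekindDomain.exists_sup_span_eq
    (I := A * Ideal.span {(3 : 𝓞 K)}) (J := A) Ideal.mul_le_left (mul_ne_zero hA0 h30)
  have hle : Ideal.span {a} ≤ A := by
    rw [← ha]
    exact le_sup_right
  obtain ⟨B, hB⟩ := Ideal.dvd_iff_le.mpr hle
  have hcop : Ideal.span {(3 : 𝓞 K)} ⊔ B = ⊤ := by
    rw [hB, ← Ideal.add_eq_sup, ← mul_add, Ideal.add_eq_sup] at ha
    have h1 : A * (Ideal.span {(3 : 𝓞 K)} ⊔ B) = A * ⊤ := by rw [ha, Ideal.mul_top]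
    exact mul_left_cancel₀ hA0 h1
  have hB0 : B ≠ 0 := by
    rintro rfl
    rw [Ideal.zero_eq_bot, sup_bot_eq, Ideal.span_singleton_eq_top] at hcop
    have h1 := hcop
    have h2 : IsUnit (Algebra.norm ℤ (3 : 𝓞 K)) := h1.map _
    have h3 : Algebra.norm ℤ (3 : 𝓞 K) = 3 ^ finrank ℚ K := by
      have h3 := Algebra.norm_algebraMap (R := ℤ) (S := 𝓞 K) 3
      rw [map_ofNat, RingOfIntegers.rank] at h3
      exact h3
    rw [h3, isUnit_pow_iff (finrank_pos (R := ℚ) (M := K)).ne'] at h2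
    rw [Int.isUnit_iff] at h2
    omega
  have hBm : B ∈ (Ideal (𝓞 K))⁰ := mem_nonZeroDivisors_of_ne_zero hB0
  have hcl : ClassGroup.mk0 ⟨B, hBm⟩ = c := by
    have h1 : ClassGroup.mk0 (⟨A, hA⟩ * ⟨B, hBm⟩ : (Ideal (𝓞 K))⁰) = 1 := by
      have h2 : (⟨A, hA⟩ * ⟨B, hBm⟩ : (Ideal (𝓞 K))⁰) = ⟨A * B, mul_mem hA hBm⟩ := rfl
      rw [h2, ClassGroup.mk0_eq_one_iff, ← hB]
      exact ⟨a, rfl⟩
    rw [map_mul, hAc, inv_mul_eq_one] at h1
    exact h1.symm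
  have hpow : ∀ d, (B ^ d).IsPrincipal ↔ 3 ∣ d := by
    intro d
    have h1 : ClassGroup.mk0 ⟨B ^ d, pow_mem hBm d⟩ = c ^ d := by
      rw [← hcl, ← map_pow]
      rfl
    rw [← ClassGroup.mk0_eq_one_iff (pow_mem hBm d), h1, ← hc, orderOf_dvd_iff_pow_eq_one]
  obtain ⟨z, hz⟩ := (hpow 3).mpr dvd_rfl
  exact ⟨B, z, hB0, hz, fun d hd => (hpow d).mp hd, hcop⟩

omit [NumberField K] in
theorem coprime_pow {B : Ideal (𝓞 K)} (h : Ideal.span {(3 : 𝓞 K)} ⊔ B = ⊤) {z : 𝓞 K}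
    (hz : B ^ 3 = Ideal.span {z}) : ∃ w, (9 : 𝓞 K) ∣ z * w - 1 := by
  have h1 : IsCoprime (Ideal.span {(3 : 𝓞 K)}) B := Ideal.isCoprime_iff_sup_eq.mpr h
  have h2 : IsCoprime (Ideal.span {(3 : 𝓞 K)} ^ 2) (B ^ 3) := h1.pow
  rw [hz, Ideal.span_singleton_pow, Ideal.isCoprime_span_singleton_iff] at h2
  obtain ⟨a, b, hab⟩ := h2
  refine ⟨b, -a, ?_⟩
  have h3 : (3 : 𝓞 K) ^ 2 = 9 := by norm_num
  rw [h3] at hab
  linear_combination hab

omit [NumberField K] in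
theorem norm_unit_sq (u : (𝓞 K)ˣ) : (((Algebra.norm ℤ (u : 𝓞 K) : ℤ) : ZMod 9)) ^ 2 = 1 := by
  have h1 : IsUnit (Algebra.norm ℤ (u : 𝓞 K)) := u.isUnit.map _
  rcases Int.isUnit_iff.mp h1 with h | h
  · rw [h]; decide
  · rw [h]; decide

theorem cube_mod9 : ∀ x : ZMod 9, IsUnit x → (x ^ 3) ^ 2 = 1 ∧ (-x ^ 3) ^ 2 = 1 := by decide

theorem norm_z_sq {B : Ideal (𝓞 K)} {z w : 𝓞 K} (hz : B ^ 3 = Ideal.span {z})
    (hw : (9 : 𝓞 K) ∣ z * w - 1) : (((Algebra.norm ℤ z : ℤ) : ZMod 9)) ^ 2 = 1 := by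
  have h1 : Ideal.absNorm B ^ 3 = (Algebra.norm ℤ z).natAbs := by
    rw [← map_pow, hz, Ideal.absNorm_span_singleton]
  have h2 : (((Algebra.norm ℤ z : ℤ) : ZMod 9)) * ((Algebra.norm ℤ w : ℤ) : ZMod 9) = 1 := by
    rw [← Int.cast_mul, ← map_mul, norm_congr hw, map_one, Int.cast_one]
  have h3 : IsUnit (((Algebra.norm ℤ z : ℤ) : ZMod 9)) := IsUnit.of_mul_eq_one _ h2
  obtain ⟨b, hb⟩ : ∃ b : ZMod 9, b = ((Ideal.absNorm B : ℕ) : ZMod 9) := ⟨_, rfl⟩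
  have h4 : (((Algebra.norm ℤ z : ℤ) : ZMod 9)) = b ^ 3 ∨
      (((Algebra.norm ℤ z : ℤ) : ZMod 9)) = -b ^ 3 := by
    have h5 : b ^ 3 = (((Algebra.norm ℤ z).natAbs : ℕ) : ZMod 9) := by
      rw [hb, ← Nat.cast_pow, h1]
    rw [h5]
    rcases Int.natAbs_eq (Algebra.norm ℤ z) with h | h
    · left
      conv_lhs => rw [h]
      rw [Int.cast_natCast]
    · right
      conv_lhs => rw [h]
      rw [Int.cast_neg, Int.cast_natCast]
  have hbu : IsUnit b := by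
    rcases h4 with h | h
    · rw [h] at h3
      exact (isUnit_pow_iff (by norm_num)).mp h3
    · rw [h, IsUnit.neg_iff] at h3
      exact (isUnit_pow_iff (by norm_num)).mp h3
  rcases h4 with h | h
  · rw [h]; exact (cube_mod9 b hbu).1
  · rw [h]; exact (cube_mod9 b hbu).2

theorem val_z {B : Ideal (𝓞 K)} (hB : B ≠ ⊥) {z : 𝓞 K} (hz : B ^ 3 = Ideal.span {z})
    (q : HeightOneSpectrum (𝓞 K)) : ∃ x : ℤᵐ⁰, q.valuation K (z : K) = x ^ 3 := by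
  classical
  have hz0 : z ≠ 0 := by
    rintro rfl
    rw [Ideal.span_singleton_eq_bot.mpr rfl] at hz
    exact hB (pow_eq_zero_iff (n := 3) (by norm_num) |>.mp hz)
  have hI0 : Ideal.span {z} ≠ ⊥ := by simpa using hz0
  have hqp : Prime q.asIdeal := q.prime
  refine ⟨exp (-(Multiset.count q.asIdeal
    (UniqueFactorizationMonoid.normalizedFactors B) : ℤ)), ?_⟩
  have h1 : q.valuation K (z : K) = q.intValuation z :=
    HeightOneSpectrum.valuation_of_algebraMap q z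
  rw [h1, q.intValuation_eq_exp_neg_multiplicity hz0,
      UniqueFactorizationMonoid.multiplicity_eq_count_normalizedFactors hqp.irreducible hI0,
      normalize_eq, ← hz, UniqueFactorizationMonoid.normalizedFactors_pow, Multiset.count_nsmul,
      ← exp_nsmul]
  congr 1
  simp only [nsmul_eq_mul]
  push_cast
  ring

theorem ideal_cube_inj {I J : Ideal (𝓞 K)} (hI : I ≠ ⊥) (hJ : J ≠ ⊥) (h : I ^ 3 = J ^ 3) :
    I = J := by
  classical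
  have h1 := congrArg UniqueFactorizationMonoid.normalizedFactors h
  rw [UniqueFactorizationMonoid.normalizedFactors_pow,
    UniqueFactorizationMonoid.normalizedFactors_pow] at h1
  have h2 : UniqueFactorizationMonoid.normalizedFactors I =
      UniqueFactorizationMonoid.normalizedFactors J := by
    refine Multiset.ext.mpr fun P => ?_
    have h3 := congrArg (Multiset.count P) h1
    rw [Multiset.count_nsmul, Multiset.count_nsmul] at h3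
    omega
  rw [← Ideal.prod_normalizedFactors_eq_self hI, ← Ideal.prod_normalizedFactors_eq_self hJ, h2]

/-- local cubes from congruences modulo 9 -/
theorem locCube_of {a b X : 𝓞 K} (ha : ∃ w, (9 : 𝓞 K) ∣ a * w - 1)
    (hb : ∃ w, (9 : 𝓞 K) ∣ b * w - 1) (h : (9 : 𝓞 K) ∣ a - b * X ^ 3) :
    LocCube ((a : K) / b) := by
  intro φ
  have hone : ∀ y : 𝓞 K, (∃ w, (9 : 𝓞 K) ∣ y * w - 1) → ‖φ (y : K)‖ = 1 := by
    rintro y ⟨w, hw⟩
    have h1 := norm_le_of_nine_dvd φ _ hw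
    rw [c_sub, c_mul, c_one, map_sub, map_mul, map_one] at h1
    have h2 : ‖φ (y : K) * φ (w : K)‖ = 1 := by
      have h3 : φ (y : K) * φ (w : K) = (φ (y : K) * φ (w : K) - 1) + 1 := by ring
      rw [h3, H65.norm_add_of_lt, norm_one]
      rw [norm_one]
      exact lt_of_le_of_lt h1 (by norm_num)
    rw [norm_mul] at h2
    have h4 := norm_embedding_le_one φ y
    have h5 := norm_embedding_le_one φ w
    have h6 : ‖φ (y : K)‖ * ‖φ (w : K)‖ ≤ ‖φ (y : K)‖ := mul_le_of_le_one_right (norm_nonneg _) h5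
    linarith
  have hna := hone a ha
  have hnb := hone b hb
  have h1 := norm_le_of_nine_dvd φ _ h
  rw [c_sub, c_mul, c_pow, map_sub, map_mul, map_pow] at h1
  have hnX : ‖φ (X : K)‖ = 1 := by
    have h2 : ‖φ (b : K) * φ (X : K) ^ 3‖ = 1 := by
      have h3 : φ (b : K) * φ (X : K) ^ 3 =
          -(φ (a : K) - φ (b : K) * φ (X : K) ^ 3) + φ (a : K) := by ring
      rw [h3, H65.norm_add_of_lt, hna]
      rw [norm_neg, hna]
      exact lt_of_le_of_lt h1 (by norm_num)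
    rw [norm_mul, hnb, one_mul, norm_pow] at h2
    exact (pow_eq_one_iff_of_nonneg (norm_nonneg _) (by norm_num)).mp h2
  have hb0 : φ (b : K) ≠ 0 := by
    intro h0
    rw [h0, norm_zero] at hnb
    exact zero_ne_one hnb
  have hX0 : φ (X : K) ≠ 0 := by
    intro h0
    rw [h0, norm_zero] at hnX
    exact zero_ne_one hnX
  have hloc : ∀ y : K, InLoc φ (φ y) := fun y ρ hρ => hρ y
  have h5 : ‖φ ((a : K) / b) / φ (X : K) ^ 3 - 1‖ ≤ (3 : ℝ)⁻¹ ^ 2 := by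
    have h6 : φ ((a : K) / b) / φ (X : K) ^ 3 - 1 =
        (φ (a : K) - φ (b : K) * φ (X : K) ^ 3) / (φ (b : K) * φ (X : K) ^ 3) := by
      rw [map_div₀]
      field_simp
    rw [h6, norm_div, norm_mul, norm_pow, hnb, hnX]
    norm_num
    norm_num at h1
    exact h1
  obtain ⟨w, hw1, hw2, _⟩ := H65.crt K φ (φ ((a : K) / b) / φ (X : K) ^ 3)
    (fun ρ hρ => by rw [map_div₀, map_pow, hloc _ ρ hρ, hloc _ ρ hρ]) 2 le_rfl h5
  refine ⟨w * φ (X : K), fun ρ hρ => by rw [map_mul, hw1 ρ hρ, hloc _ ρ hρ], ?_⟩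
  rw [mul_pow, hw2]
  field_simp

/-- the exponents of the generator of the ideal agree -/
theorem exp_le {B : Ideal (𝓞 K)} {z : 𝓞 K} (hB : B ≠ ⊥) (hz : B ^ 3 = Ideal.span {z})
    (hord : ∀ d, (B ^ d).IsPrincipal → 3 ∣ d) {i j : ℕ} (hi : i < 3) (u v : (𝓞 K)ˣ) (t : K)
    (h : ((z ^ i * u : 𝓞 K) : K) = ((z ^ j * v : 𝓞 K) : K) * t ^ 3) : i ≤ j := by
  have hz0 : z ≠ 0 := by
    rintro rfl
    rw [Ideal.span_singleton_eq_bot.mpr rfl] at hz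
    exact hB (pow_eq_zero_iff (n := 3) (by norm_num) |>.mp hz)
  have hzK : (z : K) ≠ 0 := fun h0 => hz0 (c_inj (by rw [h0]; exact (map_zero _).symm))
  have hvK : ((v : 𝓞 K) : K) ≠ 0 := fun h0 => v.ne_zero (c_inj (by rw [h0]; exact (map_zero _).symm))
  by_contra hlt
  rw [not_le] at hlt
  obtain ⟨d, rfl⟩ : ∃ d, i = j + d := ⟨i - j, by omega⟩
  have hv1 : ((v : 𝓞 K) : K) * (((v⁻¹ : (𝓞 K)ˣ) : 𝓞 K) : K) = 1 := by
    rw [← c_mul, Units.mul_inv, c_one]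
  have h1 : t ^ 3 = ((z ^ d * ((u * v⁻¹ : (𝓞 K)ˣ) : 𝓞 K) : 𝓞 K) : K) := by
    have h2 : ((z : K) ^ j * ((v : 𝓞 K) : K)) * t ^ 3 =
        ((z : K) ^ j * ((v : 𝓞 K) : K)) * ((z : K) ^ d * (((u : 𝓞 K) : K) *
          (((v⁻¹ : (𝓞 K)ˣ) : 𝓞 K) : K))) := by
      rw [c_mul, c_mul, c_pow, c_pow] at h
      rw [← h, pow_add]
      linear_combination -((z : K) ^ j * (z : K) ^ d * ((u : 𝓞 K) : K)) * hv1
    have h3 := mul_left_cancel₀ (mul_ne_zero (pow_ne_zero j hzK) hvK) h2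
    rw [h3, c_mul, c_pow, Units.val_mul, c_mul]
  have hint : IsIntegral ℤ t := by
    refine IsIntegral.of_pow (n := 3) (by norm_num) ?_
    rw [h1]
    exact RingOfIntegers.isIntegral_coe _
  obtain ⟨t', ht'⟩ : ∃ t' : 𝓞 K, (t' : K) = t := ⟨⟨t, hint⟩, rfl⟩
  have h4 : t' ^ 3 = z ^ d * ((u * v⁻¹ : (𝓞 K)ˣ) : 𝓞 K) := by
    apply c_inj
    rw [c_pow, ht', h1]
  have h5 : (B ^ d) ^ 3 = (Ideal.span {t'}) ^ 3 := by
    rw [Ideal.span_singleton_pow, h4, ← pow_mul, mul_comm d 3, pow_mul, hz,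
      Ideal.span_singleton_pow]
    exact (Ideal.span_singleton_mul_right_unit (Units.isUnit _) _).symm
  have ht0 : Ideal.span {t'} ≠ ⊥ := by
    intro h0
    rw [h0] at h5
    have h6 : (⊥ : Ideal (𝓞 K)) ^ 3 = ⊥ := zero_pow (by norm_num)
    rw [h6] at h5
    exact pow_ne_zero 3 (pow_ne_zero d hB) h5
  have h7 := ideal_cube_inj (pow_ne_zero d hB) ht0 h5
  have h8 := hord d (by rw [h7]; exact ⟨t', rfl⟩)
  omega

theorem rank_eq [IsTotallyReal K] : Units.rank K + 1 = finrank ℚ K := by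
  have h1 : Fintype.card (InfinitePlace K) = finrank ℚ K := by
    rw [InfinitePlace.card_eq_nrRealPlaces_add_nrComplexPlaces, IsTotallyReal.nrComplexPlaces_eq_zero,
      add_zero, IsTotallyReal.finrank]
  have h2 : 0 < finrank ℚ K := finrank_pos
  unfold Units.rank
  omega

/-- a product of the fundamental units -/
noncomputable def fu (c : Fin (Units.rank K) → Fin 3) : (𝓞 K)ˣ :=
  ∏ i, Units.fundSystem K i ^ (c i : ℕ)

theorem crd_fu (c : Fin (Units.rank K) → Fin 3) (i : Fin (Units.rank K)) :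
    Leo3.H93.crd (fu c) i = (c i : ℕ) := by
  have h := Leo3.H93.crd_eq (fu c) 1 (fun i => ((c i : ℕ) : ℤ)) (by
    unfold fu
    simp)
  rw [h]

/-- RAT -/
theorem rat : RatStmt := by
  classical
  intro K _ _ hK h3
  obtain ⟨B, z, hB, hz, hord, hcop⟩ := exists_ideal h3
  obtain ⟨w, hw⟩ := coprime_pow hcop hz
  have hreal := hK.real
  have hz1 : m9 z * m9 w = 1 := by
    rw [← map_mul, ← map_one m9, m9_eq]
    exact hw
  obtain ⟨z9, hz9⟩ : ∃ z9 : (R9 K)ˣ, (z9 : R9 K) = m9 z :=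
    ⟨⟨m9 z, m9 w, hz1, by rw [mul_comm, hz1]⟩, rfl⟩
  obtain ⟨g, hg⟩ : ∃ g : Fin 3 × (Fin (Units.rank K) → Fin 3) → (R9 K)ˣ,
      g = fun c => z9 ^ (c.1 : ℕ) * Units.map (m9 : 𝓞 K →+* R9 K).toMonoidHom (fu c.2) := ⟨_, rfl⟩
  have hgv : ∀ c, (g c : R9 K) = m9 (z ^ (c.1 : ℕ) * ((fu c.2 : (𝓞 K)ˣ) : 𝓞 K)) := by
    intro c
    rw [hg, map_mul, map_pow, ← hz9]
    rfl
  have hnu : ∀ c, nu (g c) = 1 := by
    intro c
    refine Units.ext ?_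
    rw [nu_val, hgv, n9_m9, map_mul, map_pow, Int.cast_mul, Int.cast_pow, mul_pow, ← pow_mul,
      mul_comm _ 2, pow_mul, norm_z_sq hz hw, one_pow, one_mul, norm_unit_sq, Units.val_one]
  obtain ⟨u₀, hu₀⟩ := exists_nu_ne hK.tr
  obtain ⟨c, c', hne, x, hx⟩ := pigeon (U := (R9 K)ˣ) (M := (ZMod 9)ˣ) (by
    refine (card_cube_one hK.nomu).trans (le_of_eq ?_)
    rw [← rank_eq, Nat.card_prod, Nat.card_fin, Nat.card_fun, Nat.card_fin, Nat.card_fin,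
      pow_succ']) nu nu_cube u₀ hu₀ g hnu
  obtain ⟨X, hX⟩ := m9_surj (x : R9 K)
  have h9 : (9 : 𝓞 K) ∣ z ^ (c.1 : ℕ) * ((fu c.2 : (𝓞 K)ˣ) : 𝓞 K) -
      z ^ (c'.1 : ℕ) * ((fu c'.2 : (𝓞 K)ˣ) : 𝓞 K) * X ^ 3 := by
    rw [← m9_eq, ← hgv, hx, Units.val_mul, Units.val_pow_eq_pow_val, map_mul, map_pow, hX, hgv]
  have hunit : ∀ c : Fin 3 × (Fin (Units.rank K) → Fin 3),
      ∃ w, (9 : 𝓞 K) ∣ z ^ (c.1 : ℕ) * ((fu c.2 : (𝓞 K)ˣ) : 𝓞 K) * w - 1 := by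
    intro c
    obtain ⟨y, hy⟩ := m9_surj (((g c)⁻¹ : (R9 K)ˣ) : R9 K)
    refine ⟨y, ?_⟩
    rw [← m9_eq, map_mul, ← hgv, hy, Units.mul_inv, map_one]
  have hloc := locCube_of (hunit c) (hunit c') h9
  have hz0 : z ≠ 0 := by
    rintro rfl
    rw [Ideal.span_singleton_eq_bot.mpr rfl] at hz
    exact hB (pow_eq_zero_iff (n := 3) (by norm_num) |>.mp hz)
  have hne0 : ∀ c : Fin 3 × (Fin (Units.rank K) → Fin 3),
      ((z ^ (c.1 : ℕ) * ((fu c.2 : (𝓞 K)ˣ) : 𝓞 K) : 𝓞 K) : K) ≠ 0 := by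
    intro c h0
    have h1 : (z ^ (c.1 : ℕ) * ((fu c.2 : (𝓞 K)ˣ) : 𝓞 K) : 𝓞 K) = 0 :=
      c_inj (by rw [h0]; exact (map_zero _).symm)
    exact mul_ne_zero (pow_ne_zero _ hz0) (Units.ne_zero _) h1
  have hval : ∀ c : Fin 3 × (Fin (Units.rank K) → Fin 3),
      ∀ q : HeightOneSpectrum (𝓞 K), ∃ y : ℤᵐ⁰,
        q.valuation K ((z ^ (c.1 : ℕ) * ((fu c.2 : (𝓞 K)ˣ) : 𝓞 K) : 𝓞 K) : K) = y ^ 3 := by
    intro c q
    obtain ⟨y, hy⟩ := val_z hB hz q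
    refine ⟨y ^ (c.1 : ℕ), ?_⟩
    have h1 : q.valuation K (((fu c.2 : (𝓞 K)ˣ) : 𝓞 K) : K) = 1 := H59.val_unit q (H59.UU_unit _)
    rw [c_mul, c_pow, map_mul, map_pow, hy, h1, mul_one, ← pow_mul, ← pow_mul, mul_comm]
  obtain ⟨t, ht⟩ := hK.w3 _ (div_ne_zero (hne0 c) (hne0 c')) (by
    intro q _
    obtain ⟨y, hy⟩ := hval c q
    obtain ⟨y', hy'⟩ := hval c' q
    exact ⟨y / y', by rw [map_div₀, hy, hy', div_pow]⟩) hloc
  have ht0 : t ≠ 0 := by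
    rintro rfl
    rw [zero_pow (by norm_num)] at ht
    exact div_ne_zero (hne0 c) (hne0 c') ht.symm
  have e1 : ((z ^ (c.1 : ℕ) * ((fu c.2 : (𝓞 K)ˣ) : 𝓞 K) : 𝓞 K) : K) =
      ((z ^ (c'.1 : ℕ) * ((fu c'.2 : (𝓞 K)ˣ) : 𝓞 K) : 𝓞 K) : K) * t ^ 3 := by
    rw [ht, mul_div_cancel₀ _ (hne0 c')]
  have e2 : ((z ^ (c'.1 : ℕ) * ((fu c'.2 : (𝓞 K)ˣ) : 𝓞 K) : 𝓞 K) : K) =
      ((z ^ (c.1 : ℕ) * ((fu c.2 : (𝓞 K)ˣ) : 𝓞 K) : 𝓞 K) : K) * (t⁻¹) ^ 3 := by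
    rw [e1, inv_pow, mul_assoc, mul_inv_cancel₀ (pow_ne_zero 3 ht0), mul_one]
  have e3 : c.1 = c'.1 := Fin.ext (le_antisymm (exp_le hB hz hord c.1.2 _ _ _ e1)
    (exp_le hB hz hord c'.1.2 _ _ _ e2))
  rw [e3, c_mul, c_mul, mul_assoc] at e1
  have hzj : ((z ^ (c'.1 : ℕ) : 𝓞 K) : K) ≠ 0 := by
    intro h0
    have h1 : (z ^ (c'.1 : ℕ) : 𝓞 K) = 0 := c_inj (by rw [h0]; exact (map_zero _).symm)
    exact pow_ne_zero _ hz0 h1
  have e4 := mul_left_cancel₀ hzj e1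
  have e5 : t ^ 3 = (((fu c.2 * (fu c'.2)⁻¹ : (𝓞 K)ˣ) : 𝓞 K) : K) := by
    have h1 : (((fu c'.2 : (𝓞 K)ˣ) : 𝓞 K) : K) * ((((fu c'.2)⁻¹ : (𝓞 K)ˣ) : 𝓞 K) : K) = 1 := by
      rw [← c_mul, Units.mul_inv, c_one]
    rw [Units.val_mul, c_mul, e4]
    linear_combination -(t ^ 3) * h1
  obtain ⟨g', -, hg'⟩ := Leo3.H93.unit_cube _ t e5
  have e6 : fu c.2 = fu c'.2 * g' ^ (3 : ℤ) := by
    have h1 : g' ^ (3 : ℤ) = g' ^ 3 := by norm_cast
    rw [h1, hg', mul_comm (fu c.2), mul_inv_cancel_left]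
  apply hne
  refine Prod.ext e3 (funext fun i => Fin.ext ?_)
  have e7 := congrArg (fun u => Leo3.H93.crd u i) e6
  simp only [Leo3.H93.crd_mul, Leo3.H93.crd_zpow, crd_fu] at e7
  have b1 := (c.2 i).2
  have b2 := (c'.2 i).2
  omega

end

end Pool.Agent.LeoK.H27
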