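import Pool.Agent.Helper59_LeoK.Phi
import Pool.Agent.Helper11_LeoK.Adm
import Pool.Agent.Helper65_Leo3.Crt
import Pool.Agent.Helper59_Leo3.Hil

/-!
# Squad leok, module RAT, part A: group theory, integrality, norms modulo 9
-/

set_option autoImplicit false

open NumberField IsDedekindDomain WithZero Module
open Pool.Agent.Helper85_Leo Pool.Agent.Leo3

namespace Pool.Agent.LeoK.H27

/-! ### Group theory -/

theorem card_eq_cubes {U : Type*} [CommGroup U] [Finite U] :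
    Nat.card U = Nat.card (powMonoidHom 3 : U →* U).range * Nat.card {u : U // u ^ 3 = 1} := by
  have h := (powMonoidHom 3 : U →* U).ker.card_mul_index
  rw [Subgroup.index_ker, mul_comm] at h
  rw [← h]
  rfl

theorem pigeon {U M ι : Type*} [CommGroup U] [Finite U] [CommGroup M] [Finite ι]
    (hU : Nat.card {u : U // u ^ 3 = 1} ≤ Nat.card ι) (ν : U →* M) (hν : ∀ u, ν u ^ 3 = 1)
    (u₀ : U) (hu₀ : ν u₀ ≠ 1) (g : ι → U) (hg : ∀ c, ν (g c) = 1) :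
    ∃ c c' : ι, c ≠ c' ∧ ∃ x : U, g c = g c' * x ^ 3 := by
  classical
  by_contra hcon
  have hcon' : ∀ c c' : ι, c ≠ c' → ∀ x : U, g c ≠ g c' * x ^ 3 :=
    fun c c' h x hx => hcon ⟨c, c', h, x, hx⟩
  have hprime : Fact (Nat.Prime 3) := ⟨Nat.prime_three⟩
  have hord : orderOf (ν u₀) = 3 := orderOf_eq_prime (hν u₀) hu₀
  obtain ⟨Φ, hΦ⟩ : ∃ Φ : ι × Fin 3 × (powMonoidHom 3 : U →* U).range → U,
      Φ = fun p => g p.1 * u₀ ^ (p.2.1 : ℕ) * p.2.2 := ⟨_, rfl⟩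
  have hinj : Function.Injective Φ := by
    rintro ⟨c, i, ⟨_, ⟨y, rfl⟩⟩⟩ ⟨c', i', ⟨_, ⟨y', rfl⟩⟩⟩ h
    rw [hΦ] at h
    simp only [powMonoidHom_apply] at h
    have h1 := congrArg ν h
    rw [map_mul, map_mul, map_mul, map_mul, hg, hg, map_pow, map_pow, map_pow, map_pow, hν, hν,
      one_mul, one_mul, mul_one, mul_one] at h1
    have h2 : (i : ℕ) = i' := by
      have hi : (i : ℕ) < orderOf (ν u₀) := by rw [hord]; exact i.2
      have hi' : (i' : ℕ) < orderOf (ν u₀) := by rw [hord]; exact i'.2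
      exact pow_injOn_Iio_orderOf hi hi' h1
    have h3 : i = i' := Fin.ext h2
    subst h3
    have h4 : g c * y ^ 3 = g c' * y' ^ 3 := by
      have h5 : g c * y ^ 3 * u₀ ^ (i : ℕ) = g c' * y' ^ 3 * u₀ ^ (i : ℕ) := by
        rw [mul_right_comm, h, mul_right_comm]
      exact mul_right_cancel h5
    have h6 : g c = g c' * (y' * y⁻¹) ^ 3 := by
      rw [mul_pow, ← mul_assoc, ← h4, inv_pow, mul_inv_cancel_right]
    have h7 : c = c' := by
      by_contra hne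
      exact hcon' c c' hne _ h6
    subst h7
    have h8 : y ^ 3 = y' ^ 3 := mul_left_cancel h4
    simp only [Prod.mk.injEq, true_and]
    exact Subtype.ext h8
  have h1 := Nat.card_le_card_of_injective Φ hinj
  rw [Nat.card_prod, Nat.card_prod, Nat.card_fin] at h1
  have h2 := card_eq_cubes (U := U)
  have hC : 0 < Nat.card (powMonoidHom 3 : U →* U).range := Nat.card_pos
  have h3 : 0 < Nat.card {u : U // u ^ 3 = 1} := by
    have : Nonempty {u : U // u ^ 3 = 1} := ⟨⟨1, one_pow 3⟩⟩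
    exact Nat.card_pos
  have h4 : 0 < Nat.card ι := lt_of_lt_of_le h3 hU
  have h5 := Nat.mul_le_mul_left (Nat.card (powMonoidHom 3 : U →* U).range) hU
  have h6 : Nat.card ι * (3 * Nat.card (powMonoidHom 3 : U →* U).range) =
      3 * (Nat.card (powMonoidHom 3 : U →* U).range * Nat.card ι) := by ring
  have h7 : 0 < Nat.card (powMonoidHom 3 : U →* U).range * Nat.card ι := Nat.mul_pos hC h4
  rw [h6] at h1
  omega

/-! ### Integrality -/

section coe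
variable {K : Type} [Field K]

theorem c_mul (a b : 𝓞 K) : ((a * b : 𝓞 K) : K) = a * b := map_mul (algebraMap (𝓞 K) K) a b

theorem c_sub (a b : 𝓞 K) : ((a - b : 𝓞 K) : K) = a - b := map_sub (algebraMap (𝓞 K) K) a b

theorem c_add (a b : 𝓞 K) : ((a + b : 𝓞 K) : K) = a + b := map_add (algebraMap (𝓞 K) K) a b

theorem c_pow (a : 𝓞 K) (n : ℕ) : ((a ^ n : 𝓞 K) : K) = (a : K) ^ n :=
  map_pow (algebraMap (𝓞 K) K) a n

theorem c_one : ((1 : 𝓞 K) : K) = 1 := map_one (algebraMap (𝓞 K) K)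

theorem c_three : ((3 : 𝓞 K) : K) = 3 := map_ofNat (algebraMap (𝓞 K) K) 3

theorem c_nine : ((9 : 𝓞 K) : K) = 9 := map_ofNat (algebraMap (𝓞 K) K) 9

theorem c_inj {a b : 𝓞 K} (h : (a : K) = b) : a = b := RingOfIntegers.coe_injective h

/-! ### The units modulo 9 -/

variable (K) in
/-- the ring of integers modulo 9 -/
abbrev R9 : Type := 𝓞 K ⧸ Ideal.span {(9 : 𝓞 K)}

/-- the class modulo 9 -/
def m9 : 𝓞 K →+* R9 K := Ideal.Quotient.mk _

theorem m9_eq {x y : 𝓞 K} : m9 x = m9 y ↔ (9 : 𝓞 K) ∣ x - y := by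
  unfold m9
  rw [Ideal.Quotient.eq, Ideal.mem_span_singleton]

theorem m9_surj : Function.Surjective (m9 : 𝓞 K →+* R9 K) := Ideal.Quotient.mk_surjective

end coe

section
variable {K : Type} [Field K] [NumberField K]

theorem int_of_loc (y : K) (h3 : ∃ a : 𝓞 K, (a : K) = 3 * y)
    (hy : ∀ φ : K →+* Om, ‖φ y‖ ≤ 1) : ∃ a : 𝓞 K, (a : K) = y := by
  obtain ⟨D, hD⟩ : ∃ D : Ideal (𝓞 K), ∀ d, d ∈ D ↔ ∃ a : 𝓞 K, (a : K) = d * y :=
    ⟨{ carrier := {d | ∃ a : 𝓞 K, (a : K) = d * y}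
       zero_mem' := ⟨0, by simp⟩
       add_mem' := by
         rintro a b ⟨c, hc⟩ ⟨d, hd⟩
         refine ⟨c + d, ?_⟩
         have h1 : ((c + d : 𝓞 K) : K) = c + d := map_add (algebraMap (𝓞 K) K) c d
         have h2 : ((a + b : 𝓞 K) : K) = a + b := map_add (algebraMap (𝓞 K) K) a b
         rw [h1, h2, hc, hd, add_mul]
       smul_mem' := by
         rintro a b ⟨c, hc⟩
         refine ⟨a * c, ?_⟩
         have h1 : ((a * c : 𝓞 K) : K) = a * c := map_mul (algebraMap (𝓞 K) K) a c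
         have h2 : ((a • b : 𝓞 K) : K) = a * b := map_mul (algebraMap (𝓞 K) K) a b
         rw [h1, h2, hc, mul_assoc] }, fun d => Iff.rfl⟩
  by_cases hT : D = ⊤
  · have h1 : (1 : 𝓞 K) ∈ D := by rw [hT]; exact Submodule.mem_top
    obtain ⟨a, ha⟩ := (hD 1).mp h1
    refine ⟨a, ?_⟩
    rw [ha]
    have h2 : ((1 : 𝓞 K) : K) = 1 := map_one (algebraMap (𝓞 K) K)
    rw [h2, one_mul]
  · exfalso
    obtain ⟨P, hP, hDP⟩ := Ideal.exists_le_maximal D hT
    have h3' : (3 : 𝓞 K) ∈ D := by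
      rw [hD]
      obtain ⟨a, ha⟩ := h3
      refine ⟨a, ?_⟩
      have h2 : ((3 : 𝓞 K) : K) = 3 := map_ofNat (algebraMap (𝓞 K) K) 3
      rw [ha, h2]
    have hPp : P.IsPrime := hP.isPrime
    obtain ⟨φ, hφ⟩ := H59.phi K P (hDP h3')
    obtain ⟨a, b, hb, hab⟩ := H11.exists_frac φ y (hy φ)
    apply hb
    rw [H11.mem_pv, ← hφ]
    apply hDP
    rw [hD]
    exact ⟨a, by rw [← hab, mul_comm]⟩

theorem three_dvd_of_loc (x : 𝓞 K) (hx : ∀ φ : K →+* Om, ‖φ (x : K)‖ ≤ 3⁻¹) :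
    (3 : 𝓞 K) ∣ x := by
  obtain ⟨a, ha⟩ := int_of_loc ((x : K) / 3) ⟨x, by field_simp⟩ (fun φ => by
    rw [map_div₀, map_ofNat, norm_div, H65.norm_three, div_inv_eq_mul]
    have := hx φ
    linarith)
  refine ⟨a, c_inj ?_⟩
  rw [c_mul, c_three, ha]
  field_simp

theorem norm_le_of_nine_dvd (φ : K →+* Om) (x : 𝓞 K) (h : (9 : 𝓞 K) ∣ x) :
    ‖φ (x : K)‖ ≤ (3 : ℝ)⁻¹ ^ 2 := by
  obtain ⟨y, rfl⟩ := h
  have h1 : φ ((9 * y : 𝓞 K) : K) = (3 : Om) ^ 2 * φ (y : K) := by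
    rw [c_mul, c_nine, map_mul, map_ofNat]
    norm_num
  rw [h1, norm_mul, norm_pow, H65.norm_three]
  exact mul_le_of_le_one_right (by positivity) (norm_embedding_le_one φ y)

/-- the cube roots of one modulo 9 -/
theorem cube_one (hmu : NoMu K) (x : 𝓞 K) (hx : (9 : 𝓞 K) ∣ x ^ 3 - 1) : (3 : 𝓞 K) ∣ x - 1 := by
  refine three_dvd_of_loc _ fun φ => ?_
  have h0 := norm_le_of_nine_dvd φ _ hx
  have e1 : φ ((x ^ 3 - 1 : 𝓞 K) : K) = φ (x : K) ^ 3 - 1 := by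
    rw [c_sub, c_pow, c_one, map_sub, map_one, map_pow]
  have e2 : φ ((x - 1 : 𝓞 K) : K) = φ (x : K) - 1 := by
    rw [c_sub, c_one, map_sub, map_one]
  rw [e1] at h0
  rw [e2]
  have hloc : InLoc φ (φ (x : K)) := fun ρ hρ => hρ _
  obtain ⟨w, hw1, hw2, hw3⟩ := H65.crt K φ (φ (x : K) ^ 3)
    (fun ρ hρ => by rw [map_pow, hloc ρ hρ]) 2 le_rfl h0
  have hw0 : w ≠ 0 := by
    intro h
    rw [h, zero_sub, norm_neg, norm_one] at hw3
    norm_num at hw3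
  have h1 := hmu φ (φ (x : K) * w⁻¹) (fun ρ hρ => by rw [map_mul, map_inv₀, hloc ρ hρ, hw1 ρ hρ])
    (by rw [mul_pow, inv_pow, hw2, mul_inv_cancel₀]; rw [← hw2]; exact pow_ne_zero 3 hw0)
  have h2 : φ (x : K) = w := by
    field_simp at h1
    exact h1
  rw [h2]
  refine hw3.trans ?_
  norm_num

instance finR9 : Finite (R9 K) := by
  have h : Ideal.span {(9 : 𝓞 K)} ≠ ⊥ := by
    rw [Ne, Ideal.span_singleton_eq_bot]
    norm_num
  exact Ideal.finiteQuotientOfFreeOfNeBot _ h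

theorem card_three : Nat.card (𝓞 K ⧸ Ideal.span {(3 : 𝓞 K)}) = 3 ^ finrank ℚ K := by
  have h1 := Ideal.absNorm_apply (Ideal.span {(3 : 𝓞 K)})
  rw [Submodule.cardQuot_apply, Ideal.absNorm_span_singleton] at h1
  have h2 : Algebra.norm ℤ (3 : 𝓞 K) = 3 ^ finrank ℚ K := by
    have h3 := Algebra.norm_algebraMap (R := ℤ) (S := 𝓞 K) 3
    rw [map_ofNat, RingOfIntegers.rank] at h3
    exact h3
  rw [h2] at h1
  rw [← h1]
  simp [Int.natAbs_pow]

theorem card_cube_one (hmu : NoMu K) :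
    Nat.card {u : (R9 K)ˣ // u ^ 3 = 1} ≤ 3 ^ finrank ℚ K := by
  rw [← card_three]
  have h : ∀ u : {u : (R9 K)ˣ // u ^ 3 = 1}, ∃ a : 𝓞 K, m9 (1 + 3 * a) = (u.1 : R9 K) := by
    intro u
    obtain ⟨x, hx⟩ := m9_surj (u.1 : R9 K)
    have h1 : m9 (x ^ 3) = m9 1 := by
      rw [map_pow, hx, map_one, ← Units.val_pow_eq_pow_val, u.2, Units.val_one]
    obtain ⟨a, ha⟩ := cube_one hmu x (m9_eq.mp h1)
    refine ⟨a, ?_⟩
    rw [← ha, add_sub_cancel, hx]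
  choose a ha using h
  have hfin : Finite (𝓞 K ⧸ Ideal.span {(3 : 𝓞 K)}) := by
    have h : Ideal.span {(3 : 𝓞 K)} ≠ ⊥ := by
      rw [Ne, Ideal.span_singleton_eq_bot]
      norm_num
    exact Ideal.finiteQuotientOfFreeOfNeBot _ h
  refine Nat.card_le_card_of_injective
    (fun u => (Ideal.Quotient.mk (Ideal.span {(3 : 𝓞 K)}) (a u))) fun u v huv => ?_
  simp only at huv
  rw [Ideal.Quotient.eq, Ideal.mem_span_singleton] at huv
  obtain ⟨c, hc⟩ := huv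
  refine Subtype.ext (Units.ext ?_)
  rw [← ha u, ← ha v, m9_eq]
  refine ⟨c, ?_⟩
  linear_combination 3 * hc

/-! ### The norm modulo 9 -/

theorem norm_congr {x y : 𝓞 K} (h : (9 : 𝓞 K) ∣ x - y) :
    ((Algebra.norm ℤ x : ℤ) : ZMod 9) = ((Algebra.norm ℤ y : ℤ) : ZMod 9) := by
  classical
  obtain ⟨w, hw⟩ := h
  obtain rfl : x = y + 9 * w := by rw [← hw]; ring
  have b := RingOfIntegers.basis K
  rw [Algebra.norm_eq_matrix_det b, Algebra.norm_eq_matrix_det b]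
  have h1 : (((Algebra.leftMulMatrix b (y + 9 * w)).det : ℤ) : ZMod 9) = _ :=
    RingHom.map_det (Int.castRingHom (ZMod 9)) (Algebra.leftMulMatrix b (y + 9 * w))
  have h2 : (((Algebra.leftMulMatrix b y).det : ℤ) : ZMod 9) = _ :=
    RingHom.map_det (Int.castRingHom (ZMod 9)) (Algebra.leftMulMatrix b y)
  rw [h1, h2]
  congr 1
  ext i j
  have h9 : (9 : 𝓞 K) * w = (9 : ℤ) • w := by
    rw [zsmul_eq_mul]
    norm_num
  rw [map_add, h9, map_zsmul]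
  simp only [RingHom.mapMatrix_apply, Matrix.map_apply, Matrix.add_apply, Matrix.smul_apply,
    Int.coe_castRingHom, smul_eq_mul, Int.cast_add, Int.cast_mul]
  have h10 : ((9 : ℤ) : ZMod 9) = 0 := by decide
  rw [h10, zero_mul, add_zero]

/-- the norm modulo 9 -/
noncomputable def n9 : R9 K →* ZMod 9 where
  toFun r := ((Algebra.norm ℤ (m9_surj r).choose : ℤ) : ZMod 9)
  map_one' := by
    have h : (9 : 𝓞 K) ∣ (m9_surj (1 : R9 K)).choose - 1 := by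
      rw [← m9_eq, (m9_surj (1 : R9 K)).choose_spec, map_one]
    rw [norm_congr h, map_one, Int.cast_one]
  map_mul' r s := by
    have h : (9 : 𝓞 K) ∣ (m9_surj (r * s)).choose - (m9_surj r).choose * (m9_surj s).choose := by
      rw [← m9_eq, map_mul, (m9_surj (r * s)).choose_spec, (m9_surj r).choose_spec,
        (m9_surj s).choose_spec]
    rw [norm_congr h, map_mul, Int.cast_mul]

theorem n9_m9 (x : 𝓞 K) : n9 (m9 x) = ((Algebra.norm ℤ x : ℤ) : ZMod 9) := by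
  have h : (9 : 𝓞 K) ∣ (m9_surj (m9 x)).choose - x := by
    rw [← m9_eq, (m9_surj (m9 x)).choose_spec]
  exact norm_congr h

/-- the square of the norm modulo 9 -/
noncomputable def nu : (R9 K)ˣ →* (ZMod 9)ˣ := (powMonoidHom 2).comp (Units.map n9)

theorem nu_val (u : (R9 K)ˣ) : ((nu u : (ZMod 9)ˣ) : ZMod 9) = n9 (u : R9 K) ^ 2 := rfl

theorem six : ∀ x : (ZMod 9)ˣ, (x ^ 2) ^ 3 = 1 := by decide

theorem nu_cube (u : (R9 K)ˣ) : nu u ^ 3 = 1 := six _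

theorem exists_nu_ne (h : TrOn K) : ∃ u : (R9 K)ˣ, nu u ≠ 1 := by
  obtain ⟨x, hx⟩ := h
  have h1 : m9 (1 + 3 * x) * m9 (1 - 3 * x) = 1 := by
    rw [← map_mul, ← map_one m9, m9_eq]
    exact ⟨-x ^ 2, by ring⟩
  have h2 : m9 (1 - 3 * x) * m9 (1 + 3 * x) = 1 := by rw [mul_comm, h1]
  refine ⟨⟨m9 (1 + 3 * x), m9 (1 - 3 * x), h1, h2⟩, fun h => ?_⟩
  have h3 := congrArg (fun v : (ZMod 9)ˣ => (v : ZMod 9)) h
  rw [nu_val, Units.val_mk, n9_m9, Units.val_one] at h3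
  obtain ⟨r, hr⟩ := Algebra.norm_one_add_smul (3 : ℤ) x
  have h4 : (1 + 3 * x : 𝓞 K) = 1 + (3 : ℤ) • x := by
    rw [zsmul_eq_mul]
    norm_num
  rw [h4, hr] at h3
  have h5 : ((((1 : ℤ) + Algebra.trace ℤ (𝓞 K) x * 3 + r * 3 ^ 2) ^ 2 - 1 : ℤ) : ZMod 9) = 0 := by
    rw [Int.cast_sub, Int.cast_pow, h3, Int.cast_one, sub_self]
  rw [ZMod.intCast_zmod_eq_zero_iff_dvd] at h5
  obtain ⟨t, ht⟩ : ∃ t, t = Algebra.trace ℤ (𝓞 K) x := ⟨_, rfl⟩
  rw [← ht] at h5 hx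
  apply hx
  obtain ⟨c, hc⟩ := h5
  push_cast at hc
  have h6 : 2 * t = 3 * (c - t ^ 2 - 2 * r - 6 * t * r - 9 * r ^ 2) := by
    linarith [hc, mul_comm t r]
  omega

end

end Pool.Agent.LeoK.H27
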